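import Mathlib

open Set Filter Topology
open scoped NNReal

namespace Pool.Agent.Results.MP_54d8ad_lc.AlwaysSimple

/-- number of elements of `A` below `n` -/
noncomputable def cnt (A : Set ℕ) (n : ℕ) : ℕ := (A ∩ Iio n).ncard

def EUWeight (h : ℕ → ℝ) : Prop :=
  (∀ n, 0 ≤ h n) ∧ Tendsto (fun n => ∑ i ∈ Finset.range n, h i) atTop atTop ∧
    Tendsto (fun n => h n / ∑ i ∈ Finset.range (n + 1), h i) atTop (𝓝 0)

def EU (h : ℕ → ℝ) : Set (Set ℕ) :=
  {A | Tendsto (fun n => (∑ i ∈ Finset.range n, A.indicator h i) / ∑ i ∈ Finset.range n, h i)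
    atTop (𝓝 0)}

def InH (g : ℕ → ℕ) : Prop :=
  Monotone g ∧ Tendsto g atTop atTop ∧ ¬ Tendsto (fun n : ℕ => (n : ℝ) / g n) atTop (𝓝 0)

def Z (g : ℕ → ℕ) : Set (Set ℕ) := {A | Tendsto (fun n => (cnt A n : ℝ) / g n) atTop (𝓝 0)}

def Modulus (f : ℝ≥0 → ℝ≥0) : Prop :=
  (∀ x, f x = 0 ↔ x = 0) ∧ (∀ x y, f (x + y) ≤ f x + f y) ∧ Monotone f ∧ ContinuousAt f 0

def Zf (g : ℕ → ℕ) (f : ℝ≥0 → ℝ≥0) : Set (Set ℕ) :=
  {A | Tendsto (fun n => (f (cnt A n) : ℝ) / f (g n)) atTop (𝓝 0)}

lemma cnt_le (A : Set ℕ) (n : ℕ) : cnt A n ≤ n := by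
  simpa [cnt] using ncard_le_ncard (inter_subset_right : A ∩ Iio n ⊆ Iio n) (finite_Iio n)

lemma thin {h : ℕ → ℝ} (h0 : ∀ n, 0 ≤ h n) (r : ℕ) : ∃ a : ℕ → ℕ,
    (∀ j, j * (r + 1) ≤ a j ∧ a j < (j + 1) * (r + 1)) ∧ ∀ (m : ℕ) (B : ℝ), 0 ≤ B →
      (∀ i < m, h i ≤ B) → ∑ i ∈ Finset.range m, (range a).indicator h i ≤
        (∑ i ∈ Finset.range m, h i) / (r + 1) + B := by
  classical
  have : ∀ j, ∃ a ∈ Finset.Ico (j * (r + 1)) ((j + 1) * (r + 1)),
      ∀ b ∈ Finset.Ico (j * (r + 1)) ((j + 1) * (r + 1)), h a ≤ h b := fun j =>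
    Finset.exists_min_image _ h ⟨j * (r + 1), Finset.mem_Ico.2 ⟨le_rfl, by nlinarith⟩⟩
  choose a ha1 ha2 using this
  simp only [Finset.mem_Ico] at ha1
  refine ⟨a, ha1, fun m B hB hm => ?_⟩
  have h1 : ∀ J, (r + 1) * ∑ j ∈ Finset.range J, h (a j) ≤
      ∑ i ∈ Finset.range (J * (r + 1)), h i := fun J => by
    induction J with
    | zero => simp
    | succ J ih =>
      rw [Finset.sum_range_succ, ← Finset.sum_range_add_sum_Ico h
        (show J * (r + 1) ≤ (J + 1) * (r + 1) by nlinarith), mul_add]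
      refine add_le_add ih ?_
      have := Finset.card_nsmul_le_sum _ h _ (ha2 J)
      rw [Nat.card_Ico, show (J + 1) * (r + 1) - J * (r + 1) = r + 1 by
        rw [Nat.add_mul]; omega, nsmul_eq_mul] at this
      exact_mod_cast this
  set J := m / (r + 1)
  have h2 : ∑ i ∈ Finset.range m, (range a).indicator h i ≤ ∑ j ∈ Finset.range J, h (a j) +
      ∑ i ∈ (Finset.range m).filter (· = a J), h i := by
    rw [Finset.sum_indicator_eq_sum_filter]
    refine le_trans (Finset.sum_le_sum_of_subset_of_nonneg (t := (Finset.range J).image a ∪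
      (Finset.range m).filter (· = a J)) ?_ fun i _ _ => h0 i) ?_
    · intro i hi
      obtain ⟨hi1, j, rfl⟩ := Finset.mem_filter.1 hi
      have h3 : j ≤ J := (Nat.le_div_iff_mul_le (by omega)).2
        ((ha1 j).1.trans (Finset.mem_range.1 hi1).le)
      rcases h3.lt_or_eq with h3 | rfl
      · exact Finset.mem_union_left _ (Finset.mem_image_of_mem _ (Finset.mem_range.2 h3))
      · exact Finset.mem_union_right _ (Finset.mem_filter.2 ⟨hi1, rfl⟩)
    · have e1 := Finset.sum_union_inter (s₁ := (Finset.range J).image a)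
        (s₂ := (Finset.range m).filter (· = a J)) (f := h)
      have e2 := Finset.sum_nonneg (s := (Finset.range J).image a ∩
        (Finset.range m).filter (· = a J)) fun i _ => h0 i
      have e3 := Finset.sum_image_le_of_nonneg (s := Finset.range J) (g := a) (f := h)
        fun i _ => h0 i
      linarith
  refine h2.trans (add_le_add ?_ ?_)
  · rw [le_div_iff₀' (by positivity)]
    exact (h1 J).trans (Finset.sum_le_sum_of_subset_of_nonneg
      (Finset.range_mono (Nat.div_mul_le_self _ _)) fun i _ _ => h0 i)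
  · rw [Finset.sum_filter, Finset.sum_ite_eq']
    split_ifs with e
    exacts [hm _ (Finset.mem_range.1 e), hB]

lemma small {h : ℕ → ℝ} (hh : EUWeight h) {η : ℝ} (hη : 0 < η) :
    ∀ᶠ m in atTop, 0 < ∑ i ∈ Finset.range m, h i ∧ ∀ i < m, h i ≤ η * ∑ i ∈ Finset.range m, h i := by
  have hm : Monotone fun n => ∑ i ∈ Finset.range n, h i := fun a b hab =>
    Finset.sum_le_sum_of_subset_of_nonneg (Finset.range_mono hab) fun i _ _ => hh.1 i
  obtain ⟨N, hN⟩ := eventually_atTop.1 ((hh.2.2.eventually (gt_mem_nhds hη)).and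
    (hh.2.1.eventually_gt_atTop 0))
  filter_upwards [hh.2.1.eventually_gt_atTop 0,
    hh.2.1.eventually_ge_atTop ((∑ i ∈ Finset.range N, h i) / η)] with m h1 h2
  refine ⟨h1, fun i hi => ?_⟩
  by_cases h3 : i < N
  · rw [div_le_iff₀' hη] at h2
    exact (Finset.single_le_sum (fun j _ => hh.1 j) (Finset.mem_range.2 h3)).trans h2
  · have h4 := (hN i (by omega)).1
    rw [div_lt_iff₀ (hN (i + 1) (by omega)).2] at h4
    exact h4.le.trans (mul_le_mul_of_nonneg_left (hm hi) hη.le)

lemma below {h : ℕ → ℝ} (h0 : ∀ n, 0 ≤ h n) (m N : ℕ) :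
    ∑ i ∈ Finset.range m, (Iio N).indicator h i ≤ ∑ i ∈ Finset.range N, h i := by
  have e : ∑ i ∈ Finset.range m, (Iio N).indicator h i =
      ∑ i ∈ (Finset.range m).filter (fun i : ℕ => i < N), h i := by
    rw [Finset.sum_filter]
    exact Finset.sum_congr rfl fun i _ => by simp [indicator]
  rw [e]
  exact Finset.sum_le_sum_of_subset_of_nonneg
    (fun i hi => Finset.mem_range.2 (Finset.mem_filter.1 hi).2) fun i _ _ => h0 i

lemma key {h : ℕ → ℝ} (hh : EUWeight h) (F φ : ℕ → ℝ) (hF : Monotone F) (hφ : ∀ᶠ n in atTop, 0 < φ n)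
    (hsub : ∀ A ∈ EU h, Tendsto (fun n => F (cnt A n) / φ n) atTop (𝓝 0)) {ε : ℝ} (hε : 0 < ε) :
    ∃ k : ℕ, ∀ᶠ n in atTop, ∀ x : ℕ, x * (k + 1) ≤ n → F x ≤ ε * φ n := by
  by_contra hc
  simp only [not_exists, not_eventually, not_forall, not_le] at hc
  have hm : Monotone fun n => ∑ i ∈ Finset.range n, h i := fun a b hab =>
    Finset.sum_le_sum_of_subset_of_nonneg (Finset.range_mono hab) fun i _ _ => hh.1 i
  have : ∀ k N : ℕ, ∃ N', N < N' ∧
      (k + 1) * ∑ i ∈ Finset.range N, h i ≤ ∑ i ∈ Finset.range N', h i ∧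
      ∃ x, (x + N) * (k + 1) ≤ N' ∧ ε * φ N' < F x := fun k N => by
    obtain ⟨N', ⟨x, h1, h2⟩, h3, h4, h5⟩ := ((hc (2 * k + 1)).and_eventually
      ((eventually_gt_atTop N).and ((eventually_ge_atTop (N * (2 * k + 1 + 1))).and
      (hh.2.1.eventually_ge_atTop ((k + 1) * ∑ i ∈ Finset.range N, h i))))).exists
    exact ⟨N', h3, h5, x, by nlinarith, h2⟩
  choose nx h1 h2 x h3 h4 using this
  let n : ℕ → ℕ := fun k => Nat.rec 0 (fun k N => nx k N) k
  have hn : StrictMono n := strictMono_nat_of_lt_succ fun k => h1 k (n k)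
  choose a ha1 ha2 using thin hh.1
  let A : Set ℕ := {i | ∃ k, n k ≤ i ∧ i < n (k + 1) ∧ i ∈ range (a k)}
  have hA : A ∈ EU h := by
    refine tendsto_order.2 ⟨fun δ hδ => Eventually.of_forall fun m => hδ.trans_le (div_nonneg
      (Finset.sum_nonneg fun i _ => indicator_nonneg (fun j _ => hh.1 j) i)
      (Finset.sum_nonneg fun i _ => hh.1 i)), fun δ hδ => ?_⟩
    obtain ⟨K, hK⟩ := exists_nat_one_div_lt (show 0 < δ / 6 by positivity)
    filter_upwards [small hh (show 0 < δ / 6 by positivity), eventually_ge_atTop (n (K + 1))]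
      with m ⟨e1, e2⟩ e3
    obtain ⟨k, k0, k1, k2⟩ : ∃ k, K ≤ k ∧ n (k + 1) ≤ m ∧ m < n (k + 1 + 1) := by
      classical
      have hex : ∃ j, m < n (j + 1) := ⟨m, (Nat.lt_succ_self m).trans_le hn.le_apply⟩
      have s1 := Nat.find_spec hex
      have s2 : K < Nat.find hex := by
        by_contra s2
        have := hn.monotone (show Nat.find hex + 1 ≤ K + 1 by omega)
        omega
      obtain ⟨k, hk⟩ : ∃ k, Nat.find hex = k + 1 := ⟨Nat.find hex - 1, by omega⟩
      exact ⟨k, by omega, not_lt.1 (Nat.find_min hex (by omega)), hk ▸ s1⟩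
    set H := ∑ i ∈ Finset.range m, h i
    have b1 : ∑ i ∈ Finset.range m, A.indicator h i ≤ ∑ i ∈ Finset.range m,
        ((Iio (n k)).indicator h i + (range (a k)).indicator h i +
          (range (a (k + 1))).indicator h i) := Finset.sum_le_sum fun i hi => by
      have p1 := indicator_nonneg (s := Iio (n k)) (fun j _ => hh.1 j) i
      have p2 := indicator_nonneg (s := range (a k)) (fun j _ => hh.1 j) i
      have p3 := indicator_nonneg (s := range (a (k + 1))) (fun j _ => hh.1 j) i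
      by_cases hi' : i ∈ A
      · rw [indicator_of_mem hi']
        obtain ⟨j, j1, j2, j3⟩ := hi'
        have j4 : j < k + 1 + 1 := hn.lt_iff_lt.1 (j1.trans_lt ((Finset.mem_range.1 hi).trans k2))
        rcases lt_trichotomy j k with j5 | rfl | j5
        · rw [indicator_of_mem (show i ∈ Iio (n k) from j2.trans_le (hn.monotone j5))]
          linarith
        · rw [indicator_of_mem j3]
          linarith
        · obtain rfl : j = k + 1 := by omega
          rw [indicator_of_mem j3]
          linarith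
      · rw [indicator_of_notMem hi']
        linarith
    have b2 : ∑ i ∈ Finset.range m, (Iio (n k)).indicator h i ≤ H / (k + 1) := by
      rw [le_div_iff₀' (by positivity)]
      exact le_trans (mul_le_mul_of_nonneg_left (below hh.1 m (n k)) (by positivity))
        ((h2 k (n k)).trans (hm k1))
    have b3 := ha2 k m _ (by positivity) e2
    have b4 := ha2 (k + 1) m _ (by positivity) e2
    have b5 : H / (k + 1) ≤ δ / 6 * H := by
      rw [div_eq_mul_one_div, mul_comm]
      refine mul_le_mul_of_nonneg_right (le_trans ?_ hK.le) e1.le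
      have : (K : ℝ) ≤ k := by exact_mod_cast k0
      gcongr
    have b6 : H / ((k + 1 : ℕ) + 1) ≤ H / (k + 1) := by
      push_cast
      gcongr
      linarith
    rw [Finset.sum_add_distrib, Finset.sum_add_distrib] at b1
    rw [div_lt_iff₀ e1]
    nlinarith
  have hcnt : ∀ k, x k (n k) ≤ cnt A (n (k + 1)) := fun k => by
    have hinj : StrictMono (a k) := strictMono_nat_of_lt_succ fun j =>
      (ha1 k j).2.trans_le (ha1 k (j + 1)).1
    have := ncard_le_ncard_of_injOn (s := Ico (n k) (n k + x k (n k))) (t := A ∩ Iio (n (k + 1)))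
      (a k) (fun j hj => ?_) hinj.injective.injOn ((finite_Iio _).inter_of_right _)
    · simpa [cnt] using this
    have p1 : n k ≤ a k j := hj.1.trans (le_trans (by nlinarith) (ha1 k j).1)
    have p2 : a k j < n (k + 1) := (ha1 k j).2.trans_le (le_trans
      (Nat.mul_le_mul_right _ (by have := hj.2; omega)) (h3 k (n k)))
    exact ⟨⟨k, p1, p2, j, rfl⟩, p2⟩
  have ht : Tendsto (fun k => n (k + 1)) atTop atTop :=
    hn.tendsto_atTop.comp (tendsto_add_atTop_nat 1)
  obtain ⟨k, k1, k2⟩ := (ht.eventually (((hsub A hA).eventually (gt_mem_nhds hε)).and hφ)).exists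
  rw [div_lt_iff₀ k2] at k1
  exact absurd (k1.trans (h4 k (n k))) (not_lt.2 (hF (hcnt k)))

theorem result : ∀ (h : ℕ → ℝ) (g : ℕ → ℕ) (f : ℝ≥0 → ℝ≥0), EUWeight h → InH g → Modulus f →
    ¬ BddAbove (range f) → EU h = Zf g f → ∃ g', InH g' ∧ EU h = Z g' := by
  intro h g f hh hg hf hu he
  let F : ℕ → ℝ := fun n => f n
  have hF : Monotone F := fun a b hab => by
    simp only [F, NNReal.coe_le_coe]
    exact hf.2.2.1 (by exact_mod_cast hab)
  have F0 : F 0 = 0 := by simp [F, hf.1]
  have Fnn : ∀ n, 0 ≤ F n := fun n => (f n).2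
  have Fpos : ∀ n, 0 < n → 0 < F n := fun n hn =>
    (Fnn n).lt_of_ne' fun e => hn.ne' (by simpa [F, hf.1] using e)
  have Fmul : ∀ a m, F (a * m) ≤ a * F m := fun a m => by
    induction a with
    | zero => simp [F0]
    | succ a ih =>
      have : F ((a + 1) * m) ≤ F (a * m) + F m := by
        simp only [F]
        rw [Nat.add_mul, one_mul, Nat.cast_add]
        exact_mod_cast hf.2.1 ((a * m : ℕ) : ℝ≥0) m
      push_cast
      linarith
  have Fq : ∀ m n, m ≤ n → F n * m ≤ 2 * n * F m := fun m n hmn => by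
    rcases Nat.eq_zero_or_pos m with rfl | hm
    · simp [F0]
    have a1 : F n ≤ (n / m + 1 : ℕ) * F m :=
      (hF (Nat.lt_div_mul_add hm |>.le.trans (by rw [Nat.add_mul, one_mul]))).trans (Fmul _ _)
    have a2 : ((n / m + 1 : ℕ) : ℝ) * m ≤ 2 * n := by
      have := Nat.div_mul_le_self n m
      exact_mod_cast (by rw [Nat.add_mul]; omega : (n / m + 1) * m ≤ 2 * n)
    have a3 := mul_le_mul_of_nonneg_right a1 (Nat.cast_nonneg (α := ℝ) m)
    have a4 := mul_le_mul_of_nonneg_right a2 (Fnn m)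
    linarith
  have hFt : Tendsto F atTop atTop := tendsto_atTop_atTop_of_monotone hF fun b => by
    obtain ⟨_, ⟨y, rfl⟩, hy⟩ := not_bddAbove_iff.1 hu b.toNNReal
    refine ⟨⌈y⌉₊, (Real.le_coe_toNNReal b).trans ?_⟩
    simp only [F, NNReal.coe_le_coe]
    exact hy.le.trans (hf.2.2.1 (Nat.le_ceil y))
  let φ : ℕ → ℝ := fun n => F (g n)
  have hφt : Tendsto φ atTop atTop := hFt.comp hg.2.1
  have hφm : Monotone φ := hF.comp hg.1
  let u : ℕ → ℝ := fun n => n * φ n / F n
  let g' : ℕ → ℕ := fun n => (Finset.range (n + 1)).sup fun m => ⌈u m⌉₊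
  have unn : ∀ n, 0 ≤ u n := fun n => div_nonneg (mul_nonneg n.cast_nonneg (Fnn _)) (Fnn _)
  have hlo : ∀ n, u n ≤ g' n := fun n => (Nat.le_ceil _).trans (by
    exact_mod_cast Finset.le_sup (f := fun m => ⌈u m⌉₊) (Finset.self_mem_range_succ n))
  have hhi : ∀ n, 0 < n → (g' n : ℝ) ≤ 2 * u n + 1 := fun n hn => by
    have : g' n ≤ ⌈2 * u n⌉₊ := Finset.sup_le fun m hm => Nat.ceil_mono (by
      have hm' : m ≤ n := by simpa [Nat.lt_succ_iff] using hm
      rcases Nat.eq_zero_or_pos m with rfl | h0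
      · simp only [u, Nat.cast_zero, zero_mul, zero_div]
        exact mul_nonneg two_pos.le (unn n)
      simp only [u]
      rw [← mul_div_assoc, div_le_div_iff₀ (Fpos m h0) (Fpos n hn)]
      have a1 := mul_le_mul (Fq m n hm') (hφm hm') (Fnn _)
        (mul_nonneg (by positivity) (Fnn m))
      linarith)
    exact le_trans (by exact_mod_cast this) (Nat.ceil_lt_add_one (by linarith [unn n])).le
  have hut : Tendsto u atTop atTop := by
    refine tendsto_atTop_mono' _ ?_ (hφt.atTop_div_const (Fpos 1 one_pos))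
    filter_upwards [eventually_gt_atTop 0] with n hn
    simp only [u]
    rw [div_le_div_iff₀ (Fpos 1 one_pos) (Fpos n hn)]
    have a1 := Fmul n 1
    rw [mul_one] at a1
    have a2 := mul_le_mul_of_nonneg_left a1 (Fnn (g n))
    simp only [φ]
    linarith
  have hZ : EU h = Z g' := by
    ext A
    constructor
    · intro hA
      have h1 : Tendsto (fun n => F (cnt A n) / φ n) atTop (𝓝 0) := he.subset hA
      refine squeeze_zero' (Eventually.of_forall fun n => by positivity) ?_
        (by simpa using h1.const_mul 2)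
      filter_upwards [eventually_gt_atTop 0, hφt.eventually_gt_atTop 0, hut.eventually_gt_atTop 0]
        with n a1 a2 a3
      refine (div_le_div_of_nonneg_left (Nat.cast_nonneg _) a3 (hlo n)).trans ?_
      simp only [u]
      have a4 : (0 : ℝ) < n := by exact_mod_cast a1
      rw [div_div_eq_mul_div, ← mul_div_assoc, div_le_div_iff₀ (by positivity) a2]
      have := mul_le_mul_of_nonneg_right (Fq _ _ (cnt_le A n)) a2.le
      linarith
    · intro hA
      rw [he]
      refine tendsto_order.2 ⟨fun δ hδ => Eventually.of_forall fun m => hδ.trans_le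
        (div_nonneg (Fnn _) (Fnn _)), fun δ hδ => ?_⟩
      obtain ⟨k, hk⟩ := key hh F φ hF (hφt.eventually_gt_atTop 0) (fun A hA => he.subset hA)
        (half_pos hδ)
      have hA' : Tendsto (fun n => (cnt A n : ℝ) / g' n) atTop (𝓝 0) := hA
      filter_upwards [hk, eventually_gt_atTop 0, hφt.eventually_gt_atTop 0,
        hut.eventually_ge_atTop 1, hA'.eventually (gt_mem_nhds
          (show 0 < δ / 2 / (3 * (k + 1)) by positivity))] with n a1 a2 a3 a4 a5
      show F (cnt A n) / φ n < δ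
      rw [div_lt_iff₀ a3]
      have a6 : δ / 2 * φ n < δ * φ n := by nlinarith
      refine lt_of_le_of_lt ?_ a6
      by_cases a7 : cnt A n * (k + 1) ≤ n
      · exact a1 _ a7
      refine (hF (cnt_le A n)).trans ?_
      have a8 : (n : ℝ) ≤ cnt A n * (k + 1) := by exact_mod_cast (not_le.1 a7).le
      have a9 : (0 : ℝ) < g' n := by linarith [hlo n]
      rw [div_lt_div_iff₀ a9 (by positivity)] at a5
      have a10 : (g' n : ℝ) ≤ 3 * u n := by linarith [hhi n a2]
      have a11 : (n : ℝ) ≤ δ / 2 * u n := by nlinarith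
      have a12 : (0 : ℝ) < n := by exact_mod_cast a2
      simp only [u] at a11
      rw [← mul_div_assoc, le_div_iff₀ (Fpos n a2)] at a11
      nlinarith
  refine ⟨g', ⟨fun a b hab => Finset.sup_mono (Finset.range_mono (by omega)), ?_, fun h0 => ?_⟩, hZ⟩
  · exact tendsto_natCast_atTop_iff.1 (tendsto_atTop_mono hlo hut)
  · have h1 : univ ∈ EU h := by
      rw [hZ]
      simpa [Z, cnt] using h0
    have h2 : Tendsto (fun _ : ℕ => (1 : ℝ)) atTop (𝓝 0) := by
      refine Tendsto.congr' ?_ h1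
      filter_upwards [hh.2.1.eventually_gt_atTop 0] with n hn
      simp [hn.ne']
    simp at h2

end Pool.Agent.Results.MP_54d8ad_lc.AlwaysSimple
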